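import Mathlib

namespace Pool.Agent.Results.MP_b94b02_co.Counter

open Finset Polynomial

/-- The number of excedances. -/
def exc {n : ℕ} (σ : Equiv.Perm (Fin n)) : ℕ := (univ.filter fun i => i < σ i).card

/-- The number of permutations of `Fin n` with sign `s` and `k` excedances. -/
def cnt (n : ℕ) (s : ℤˣ) (k : ℕ) : ℕ :=
  (univ.filter fun σ : Equiv.Perm (Fin n) => Equiv.Perm.sign σ = s ∧ exc σ = k).card

/-- `A n 1 = A⁺_n` and `A n (-1) = A⁻_n`. -/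
noncomputable def A (n : ℕ) (s : ℤˣ) : ℝ[X] := ∑ k ∈ range (n + 1), C (cnt n s k : ℝ) * X ^ k

/-- All complex roots are real. -/
def RealRooted (p : ℝ[X]) : Prop := ∀ z : ℂ, aeval z p = 0 → z.im = 0

theorem result : ¬ ∀ n : ℕ, 5 ≤ n → RealRooted (A n 1) ∧ RealRooted (A n (-1)) := by
  intro h
  have h5 := (h 5 le_rfl).1
  have c : cnt 5 1 0 = 1 ∧ cnt 5 1 1 = 11 ∧ cnt 5 1 2 = 36 ∧ cnt 5 1 3 = 11 ∧ cnt 5 1 4 = 1 ∧
      cnt 5 1 5 = 0 := by decide +kernel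
  obtain ⟨u, hu⟩ : ∃ u : ℂ, u ^ 2 + 11 * u + 34 = 0 := by
    obtain ⟨s, hs⟩ := IsAlgClosed.exists_pow_nat_eq (-15 : ℂ) two_pos
    exact ⟨(-11 + s) / 2, by linear_combination hs / 4⟩
  obtain ⟨z, hz⟩ : ∃ z : ℂ, z ^ 2 - u * z + 1 = 0 := by
    obtain ⟨s, hs⟩ := IsAlgClosed.exists_pow_nat_eq (u ^ 2 - 4) two_pos
    exact ⟨(u + s) / 2, by linear_combination hs / 4⟩
  have e : 1 + 11 * z + 36 * z ^ 2 + 11 * z ^ 3 + z ^ 4 = 0 := by
    linear_combination z ^ 2 * hu + (z ^ 2 + (u + 11) * z + 1) * hz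
  have him := h5 z (by
    simp only [A, sum_range_succ, range_zero, sum_empty, c.1, c.2.1, c.2.2.1, c.2.2.2.1,
      c.2.2.2.2.1, c.2.2.2.2.2, map_add, map_mul, map_pow, aeval_X, aeval_C, map_zero,
      Complex.coe_algebraMap]
    push_cast
    linear_combination e)
  obtain ⟨x, rfl⟩ : ∃ x : ℝ, z = x := ⟨z.re, Complex.ext rfl (by simpa using him)⟩
  have e' : 1 + 11 * x + 36 * x ^ 2 + 11 * x ^ 3 + x ^ 4 = 0 := by exact_mod_cast e
  nlinarith [sq_nonneg (x ^ 2 + 11 / 2 * x + 1), sq_nonneg x, sq_nonneg (x + 1), sq_nonneg (x ^ 2)]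

end Pool.Agent.Results.MP_b94b02_co.Counter
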